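import Pool.Agent.Q22.CMWQ
import Pool.Agent.Q22.CMWR

/-! The endomorphism monoid of the random graph has finite commutative submonoid width, and the
monoids of order automorphisms and of order endomorphisms of the rationals do not. -/

namespace Pool.Agent.Results.MP_697e97_al.EndRandomGraph

open Q22.CMW

/-- For the random graph `R` the endomorphism monoid has commutative submonoid width at most three.
The group of order automorphisms and the monoid of order-preserving self-maps of the rationals both
have infinite commutative submonoid width. -/
theorem result :
    (∀ (V : Type) [Countable V] (R : SimpleGraph V), IsRandom R → cmw (R →g R) ≤ 3) ∧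
      cmw (ℚ ≃o ℚ) = ⊤ ∧ cmw (ℚ →o ℚ) = ⊤ :=
  ⟨fun _ _ _ hR => cmw_end_random hR, cmw_aut, cmw_end⟩

end Pool.Agent.Results.MP_697e97_al.EndRandomGraph
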